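import Pool.Agent.Helper42.QD.Stmts

/-!
# qd_mods, module FE
-/

set_option autoImplicit false

namespace Pool.Agent.Helper42.QD

theorem fe_unit {E : Type} [Field E] (a b d e : E) (h : a * e - b * d ≠ 0) :
    ∃ g : G2 E, g.val = !![a, b; d, e] := by
  have h1 : IsUnit (!![a, b; d, e] : Matrix (Fin 2) (Fin 2) E).det := by
    rw [Matrix.det_fin_two_of]
    exact h.isUnit
  exact ⟨Matrix.nonsingInvUnit _ h1, rfl⟩

theorem fe_gmap {E : Type} [Field E] (t : E ≃+* E) (g : G2 E) (i j : Fin 2) :
    (gmap t g).val i j = t (g.val i j) := rfl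

theorem st_FE : ST_FE := by
  intro E _ t ht
  constructor
  · intro b u s hb hu hs h1 h2 h3
    have hb' : t b ≠ 0 := by
      rwa [Ne, map_eq_zero_iff t t.injective]
    have h4 : (s - t u) * (s - u) = s * (b * t b) := by
      linear_combination (-1 : E) * h1 + s * h2
    have h5 : s - t u ≠ 0 := by
      intro h
      rw [h, zero_mul] at h4
      exact mul_ne_zero hs (mul_ne_zero hb hb') h4.symm
    have h6 : t s - s ≠ 0 := fun h => h3 (sub_eq_zero.1 h).symm
    have hdet : (s - t u) / b * ((t s - u) / t b - b) - t u * 1 ≠ 0 := by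
      have : (s - t u) / b * ((t s - u) / t b - b) - t u * 1 =
          (s - t u) * (t s - s) / (b * t b) := by
        field_simp
        linear_combination h4
      rw [this]
      exact div_ne_zero (mul_ne_zero h5 h6) (mul_ne_zero hb hb')
    obtain ⟨g, hg⟩ := fe_unit _ _ _ _ hdet
    have g00 : g.val 0 0 = (s - t u) / b := by rw [hg]; rfl
    have g01 : g.val 0 1 = t u := by rw [hg]; rfl
    have g10 : g.val 1 0 = 1 := by rw [hg]; rfl
    have g11 : g.val 1 1 = (t s - u) / t b - b := by rw [hg]; rfl
    refine ⟨g, ext2 ?_ ?_ ?_ ?_⟩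
    · simp only [mul00, mul01, mul10, mul11, nn_val, ww_val, dg_val hu one_ne_zero,
        dg_val hs one_ne_zero, fe_gmap, g00, g01, g10, g11, Matrix.of_apply, Matrix.cons_val_zero,
        Matrix.cons_val_one, Matrix.cons_val', Matrix.cons_val_fin_one, map_one]
      field_simp
      ring
    · simp only [mul00, mul01, mul10, mul11, nn_val, ww_val, dg_val hu one_ne_zero,
        dg_val hs one_ne_zero, fe_gmap, g00, g01, g10, g11, Matrix.of_apply, Matrix.cons_val_zero,
        Matrix.cons_val_one, Matrix.cons_val', Matrix.cons_val_fin_one, map_one, map_sub,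
        map_div₀, ht]
      field_simp
      linear_combination (-1 : E) * h4
    · simp only [mul00, mul01, mul10, mul11, nn_val, ww_val, dg_val hu one_ne_zero,
        dg_val hs one_ne_zero, fe_gmap, g00, g01, g10, g11, Matrix.of_apply, Matrix.cons_val_zero,
        Matrix.cons_val_one, Matrix.cons_val', Matrix.cons_val_fin_one, map_one, map_sub,
        map_div₀, ht]
      ring
    · simp only [mul00, mul01, mul10, mul11, nn_val, ww_val, dg_val hu one_ne_zero,
        dg_val hs one_ne_zero, fe_gmap, g00, g01, g10, g11, Matrix.of_apply, Matrix.cons_val_zero,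
        Matrix.cons_val_one, Matrix.cons_val', Matrix.cons_val_fin_one, map_one, map_sub,
        map_div₀, ht]
      ring
  · intro u z e hu hz htu he
    have hz0 : z ≠ 0 := by
      rintro rfl
      exact hu (by rw [← hz, zero_mul])
    have hdet : 1 * (z * t e) - z * e ≠ 0 := by
      have : 1 * (z * t e) - z * e = z * (t e - e) := by ring
      rw [this]
      exact mul_ne_zero hz0 (sub_ne_zero.2 he)
    obtain ⟨g, hg⟩ := fe_unit _ _ _ _ hdet
    have g00 : g.val 0 0 = 1 := by rw [hg]; rfl
    have g01 : g.val 0 1 = z := by rw [hg]; rfl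
    have g10 : g.val 1 0 = e := by rw [hg]; rfl
    have g11 : g.val 1 1 = z * t e := by rw [hg]; rfl
    refine ⟨g, ext2 ?_ ?_ ?_ ?_⟩ <;>
      simp only [mul00, mul01, mul10, mul11, ww_val, dg_val hu one_ne_zero,
        dg_val hz0 hz0, fe_gmap, g00, g01, g10, g11, Matrix.of_apply, Matrix.cons_val_zero,
        Matrix.cons_val_one, Matrix.cons_val', Matrix.cons_val_fin_one, map_one, map_mul, ht]
    · ring
    · rw [← hz]; ring
    · ring
    · rw [← hz]; ring

end Pool.Agent.Helper42.QD
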