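import Pool.Agent.Helper42.QD.Stmts

/-!
# qd_mods, module FF
-/

set_option autoImplicit false

namespace Pool.Agent.Helper42.QD

theorem ff_conj {E : Type} [Field E] [Fintype E] [DecidableEq E] (c : FD E)
    (hc : ∀ g h : G2 E, ttr c (h * g * (gmap c.tau h)⁻¹) = ttr c g) {g g' h : G2 E}
    (e : h * g' = g * gmap c.tau h) : ttr c g' = ttr c g := by
  have h1 : g' = h⁻¹ * g * (gmap c.tau h⁻¹)⁻¹ := by
    rw [map_inv, inv_inv, mul_assoc, ← e, inv_mul_cancel_left]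
  rw [h1, hc]

theorem st_FF (hFN : ST_FN) (hFJ : ST_FJ) (hFT : ST_FT) (hFE : ST_FE) (hFP1 : ST_FP1)
    (hFP2 : ST_FP2) (hFP3 : ST_FP3) : ST_FF := by
  intro E _ _ _ c
  obtain ⟨a, ha, hcard, hE, hEu, hnorm, h90⟩ := hFN E c.tau c.tau2 c.taun
  obtain ⟨j, hj, hjt, hjo, hom, hn1⟩ := hFJ E c
  obtain ⟨hTT, hz, hconj⟩ := hFT E c j hj hom
  obtain ⟨hE1, hE2⟩ := hFE E c.tau c.tau2
  have hT0 : ∀ s : Eˣ, TT c j 0 s = ttr c (dg (s : E) 1 * ww E) := by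
    intro s
    rw [← hTT, nn_zero, one_mul]
  refine hFP3 E c.tau a (fun b u => ‖TT c j b u‖ ^ 2) c.tau2 ha hcard hE hEu hnorm
    (fun b u => by positivity) (hFP1 E c j hjo hn1) (hFP2 E c j a hjo hom hn1 hnorm h90) ?_ ?_
  · intro u hu
    have h1 : 0 < (Finset.univ.filter fun y : Eˣ => y * tu c.tau y = u).card := by
      rw [hnorm u hu]
      omega
    obtain ⟨z, hz1⟩ := Finset.card_pos.1 h1
    have hz2 : z * tu c.tau z = u := (Finset.mem_filter.1 hz1).2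
    obtain ⟨e, he⟩ := c.taun
    obtain ⟨h, hh⟩ := hE2 (u : E) (z : E) e u.ne_zero (congrArg Units.val hz2)
      (congrArg Units.val hu) he
    have h2 : TT c j 0 u = c.om z * (a : ℂ) := by
      rw [hT0, ff_conj c hconj hh, hz, hcard]
    show ‖TT c j 0 u‖ ^ 2 = (a : ℝ) ^ 2
    rw [h2, norm_mul, hn1, one_mul, Complex.norm_natCast]
  · intro b u s hb hs1 hs2 hs3
    obtain ⟨h, hh⟩ := hE1 b (u : E) (s : E) hb u.ne_zero s.ne_zero (congrArg Units.val hs1) hs2 hs3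
    show ‖TT c j b u‖ ^ 2 = ‖TT c j 0 s‖ ^ 2
    rw [hT0, ← hTT, ff_conj c hconj hh]

end Pool.Agent.Helper42.QD
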